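import Pool.Agent.Helper18.NF.StA

/-!
# NF-16: nonvanishing of `L(1, χ)` for systems
-/

set_option autoImplicit false

open Finset Filter Topology
open Pool.Agent.Helper18.NF Pool.Agent.Helper18.BV
open scoped ArithmeticFunction.vonMangoldt

namespace Pool.Agent.Helper87.NF

/-- absolute convergence for `Re s > 1` -/
def Ok (a : ℕ → ℂ) : Prop := ∀ s : ℂ, 1 < s.re → LSeriesSummable a s

/-- the residue at `s = 1`, from the right -/
def Lim (a : ℕ → ℂ) (c : ℂ) : Prop :=
  Tendsto (fun σ : ℝ => ((σ : ℂ) - 1) * LSeries a σ) (𝓝[>] (1 : ℝ)) (𝓝 c)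

theorem Lim.unique {a : ℕ → ℂ} {c c' : ℂ} (h : Lim a c) (h' : Lim a c') : c = c' :=
  tendsto_nhds_unique h h'

theorem tendsto_sub_one : Tendsto (fun σ : ℝ => ((σ : ℂ) - 1)) (𝓝[>] (1 : ℝ)) (𝓝 0) := by
  have h : Continuous fun σ : ℝ => ((σ : ℂ) - 1) := by fun_prop
  have := h.tendsto 1
  simp only [Complex.ofReal_one, sub_self] at this
  exact this.mono_left nhdsWithin_le_nhds

theorem ok_of_one {a : ℕ → ℂ} (h : LSeriesSummable a 1) : Ok a := fun s hs =>
  h.of_re_le_re (by simpa using hs.le)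

theorem lim_zero {a : ℕ → ℂ} (h : LSeriesSummable a 1) : Lim a 0 := by
  unfold Lim
  have hb : ∀ σ : ℝ, 1 < σ → ‖LSeries a σ‖ ≤ ∑' m, ‖LSeries.term a 1 m‖ := by
    intro σ hσ
    have h1 : LSeriesSummable a σ := ok_of_one h σ (by simpa using hσ)
    refine (norm_tsum_le_tsum_norm h1.norm).trans ?_
    refine h1.norm.tsum_le_tsum (fun m => ?_) h.norm
    exact LSeries.norm_term_le_of_re_le_re a (by simpa using hσ.le) m
  have h0 : Tendsto (fun σ : ℝ => ‖((σ : ℂ) - 1)‖ * ∑' m, ‖LSeries.term a 1 m‖) (𝓝[>] (1 : ℝ))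
      (𝓝 0) := by
    have := tendsto_sub_one.norm.mul_const (∑' m, ‖LSeries.term a 1 m‖)
    simpa using this
  refine squeeze_zero_norm' ?_ h0
  filter_upwards [self_mem_nhdsWithin] with σ hσ
  rw [norm_mul]
  exact mul_le_mul_of_nonneg_left (hb σ hσ) (norm_nonneg _)

theorem Lim.add {a b : ℕ → ℂ} {c c' : ℂ} (ha : Ok a) (hb : Ok b) (h : Lim a c) (h' : Lim b c') :
    Lim (a + b) (c + c') := by
  unfold Lim at h h' ⊢
  refine (h.add h').congr' ?_
  filter_upwards [self_mem_nhdsWithin] with σ hσ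
  have h1 : (1 : ℝ) < ((σ : ℂ)).re := by simpa using hσ
  rw [LSeries_add (ha σ h1) (hb σ h1)]
  ring

theorem Lim.smul {a : ℕ → ℂ} {c : ℂ} (h : Lim a c) (k : ℂ) : Lim (k • a) (k * c) := by
  unfold Lim at h ⊢
  refine (h.const_mul k).congr' ?_
  filter_upwards [self_mem_nhdsWithin] with σ hσ
  rw [LSeries_smul]
  ring

theorem Ok.smul {a : ℕ → ℂ} (h : Ok a) (k : ℂ) : Ok (k • a) := fun s hs => (h s hs).smul k

theorem Lim.sum {ι : Type*} (S : Finset ι) {a : ι → ℕ → ℂ} {c : ι → ℂ}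
    (ha : ∀ i ∈ S, Ok (a i)) (h : ∀ i ∈ S, Lim (a i) (c i)) :
    Lim (∑ i ∈ S, a i) (∑ i ∈ S, c i) := by
  unfold Lim
  have h1 : Tendsto (fun σ : ℝ => ∑ i ∈ S, ((σ : ℂ) - 1) * LSeries (a i) σ) (𝓝[>] (1 : ℝ))
      (𝓝 (∑ i ∈ S, c i)) := tendsto_finsetSum _ fun i hi => h i hi
  refine h1.congr' ?_
  filter_upwards [self_mem_nhdsWithin] with σ hσ
  have h1 : (1 : ℝ) < ((σ : ℂ)).re := by simpa using hσ
  rw [LSeries_sum fun i hi => ha i hi σ h1, mul_sum]

/-- the values of the von Mangoldt function outside the large primes -/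
noncomputable def exc (P : ℕ) (m : ℕ) : ℝ := if m.Prime ∧ P ≤ m then 0 else Λ m

theorem exc_nonneg (P m : ℕ) : 0 ≤ exc P m := by
  unfold exc
  split_ifs
  · exact le_rfl
  · exact ArithmeticFunction.vonMangoldt_nonneg

theorem summable_exc (P : ℕ) : Summable fun m : ℕ => exc P m / m := by
  have h1 := ArithmeticFunction.vonMangoldt.summable_residueClass_non_primes_div (q := 1) 0
  have h2 : Summable fun m : ℕ => (if m < P then (Λ m) / m else 0 : ℝ) := by
    refine summable_of_ne_finset_zero (s := range P) fun m hm => ?_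
    rw [if_neg]
    simpa using hm
  refine Summable.of_nonneg_of_le (fun m => div_nonneg (exc_nonneg P m) (Nat.cast_nonneg m))
    (fun m => ?_) (h1.add h2)
  have hL : (0 : ℝ) ≤ Λ m := ArithmeticFunction.vonMangoldt_nonneg
  have hL' : (0 : ℝ) ≤ Λ m / m := div_nonneg hL (Nat.cast_nonneg m)
  have hres : ArithmeticFunction.vonMangoldt.residueClass (0 : ZMod 1) m = Λ m := by
    have : (m : ZMod 1) = 0 := Subsingleton.elim _ _
    simp [ArithmeticFunction.vonMangoldt.residueClass, this]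
  rw [hres]
  unfold exc
  by_cases hp : m.Prime
  · by_cases hP : P ≤ m
    · simp [hp, hP, not_lt.2 hP]
    · have hP' := not_le.1 hP
      simp [hp, hP, hP']
  · simp only [hp, false_and, if_false]
    split_ifs
    · linarith
    · linarith

/-- comparison of two sequences that agree on the large primes -/
theorem Lim.cmp {a b : ℕ → ℂ} {c : ℂ} (K : ℝ) (P : ℕ) (ha : Ok a)
    (h : ∀ m, ‖b m - a m‖ ≤ K * exc P m) (hl : Lim a c) : Lim b c := by
  have h1 : LSeriesSummable (b - a) 1 := by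
    refine Summable.of_norm_bounded (g := fun m => K * (exc P m / m))
      ((summable_exc P).mul_left K) fun m => ?_
    rw [LSeries.norm_term_eq]
    split_ifs with h0
    · subst h0
      simp
    · simp only [Complex.one_re, Real.rpow_one, Pi.sub_apply]
      rw [← mul_div_assoc]
      exact div_le_div_of_nonneg_right (h m) (Nat.cast_nonneg m)
  have h2 := hl.add ha (ok_of_one h1) (lim_zero h1)
  rw [add_zero] at h2
  have h3 : a + (b - a) = b := by simp
  rwa [h3] at h2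

/-- logarithmic derivative near a zero -/
theorem analytic_lim {f : ℂ → ℂ} (hf : AnalyticAt ℂ f 1) (hne : analyticOrderAt f 1 ≠ ⊤) :
    Tendsto (fun σ : ℝ => ((σ : ℂ) - 1) * (deriv f σ / f σ)) (𝓝[>] (1 : ℝ))
      (𝓝 (analyticOrderNatAt f 1 : ℂ)) ∧ ∀ᶠ σ : ℝ in 𝓝[>] (1 : ℝ), f σ ≠ 0 := by
  obtain ⟨g, hg, hg1, hfg⟩ := hf.analyticOrderAt_ne_top.1 hne
  set m := analyticOrderNatAt f 1 with hm
  have hcast : Tendsto (fun σ : ℝ => (σ : ℂ)) (𝓝[>] (1 : ℝ)) (𝓝 (1 : ℂ)) := by
    have h : Continuous fun σ : ℝ => (σ : ℂ) := Complex.continuous_ofReal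
    have := h.tendsto 1
    simp only [Complex.ofReal_one] at this
    exact this.mono_left nhdsWithin_le_nhds
  have hne1 : ∀ᶠ σ : ℝ in 𝓝[>] (1 : ℝ), (σ : ℂ) - 1 ≠ 0 := by
    filter_upwards [self_mem_nhdsWithin] with σ hσ
    rw [sub_ne_zero]
    intro h
    have : σ = 1 := by exact_mod_cast h
    exact absurd hσ (by simp [this])
  have hgne : ∀ᶠ z in 𝓝 (1 : ℂ), g z ≠ 0 := hg.continuousAt.eventually_ne hg1
  have hgd : ∀ᶠ z in 𝓝 (1 : ℂ), DifferentiableAt ℂ g z := by
    filter_upwards [hg.eventually_analyticAt] with z hz using hz.differentiableAt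
  have hld : ∀ᶠ z in 𝓝 (1 : ℂ), z - 1 ≠ 0 →
      (z - 1) * (deriv f z / f z) = m + (z - 1) * (deriv g z / g z) ∧ f z ≠ 0 := by
    filter_upwards [hfg.eventually_nhds, hgne, hgd] with z hz0 hgz hgdz hz1
    have hz : f =ᶠ[𝓝 z] fun z => (z - 1) ^ m • g z := hz0
    have h1 : deriv f z = m * (z - 1) ^ (m - 1) * g z + (z - 1) ^ m * deriv g z := by
      rw [hz.deriv_eq]
      have e1 : HasDerivAt (fun z : ℂ => (z - 1) ^ m) (m * (z - 1) ^ (m - 1) * 1) z :=
        ((hasDerivAt_id z).sub_const 1).pow m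
      have e2 := e1.mul hgdz.hasDerivAt
      simp only [smul_eq_mul]
      have e3 := e2.deriv
      rw [mul_one] at e3
      exact e3
    have h2 : f z = (z - 1) ^ m * g z := by
      have := hz.eq_of_nhds
      simpa using this
    have h3 : f z ≠ 0 := by
      rw [h2]
      exact mul_ne_zero (pow_ne_zero _ hz1) hgz
    refine ⟨?_, h3⟩
    rw [← mul_div_assoc, div_eq_iff h3, h1, h2]
    have h4 : (m : ℂ) * (z - 1) ^ (m - 1) * (z - 1) = m * (z - 1) ^ m := by
      rcases Nat.eq_zero_or_pos m with h | h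
      · rw [h]; simp
      · rw [mul_assoc, ← pow_succ, Nat.sub_add_cancel h]
    have h5 : (z - 1) * (deriv g z / g z) * ((z - 1) ^ m * g z) =
        (z - 1) * (deriv g z) * (z - 1) ^ m := by
      field_simp
    rw [add_mul, h5]
    linear_combination g z * h4
  have hreal := (hcast.eventually hld).and hne1
  constructor
  · have hgc : Tendsto (fun z : ℂ => (m : ℂ) + (z - 1) * (deriv g z / g z)) (𝓝 1)
        (𝓝 ((m : ℂ) + (1 - 1) * (deriv g 1 / g 1))) := by
      refine ((((continuous_id.sub continuous_const).tendsto 1).mul ?_)).const_add _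
      exact (hg.deriv.continuousAt.tendsto).div hg.continuousAt.tendsto hg1
    rw [sub_self, zero_mul, add_zero] at hgc
    refine (hgc.comp hcast).congr' ?_
    filter_upwards [hreal] with σ hσ
    exact ((hσ.1 hσ.2).1).symm
  · filter_upwards [hreal] with σ hσ
    exact (hσ.1 hσ.2).2

section System

variable {n : ℕ} {r L : ArithmeticFunction ℝ} {κ : ℝ}

theorem ok_cr (hS : IsSys n r L κ) (h2 : Cont0) : Ok (cr r) := by
  obtain ⟨C, Z0, -, hZd, hZ, -⟩ := h2 n r L κ hS
  have hn : (0 : ℝ) < n := by exact_mod_cast hS.pos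
  have hopen : IsOpen {s : ℂ | 1 - 1 / (n : ℝ) < s.re} :=
    isOpen_lt continuous_const Complex.continuous_re
  have h1 : (1 : ℂ) ∈ {s : ℂ | 1 - 1 / (n : ℝ) < s.re} := by
    simp only [Set.mem_ofPred_eq, Complex.one_re]
    have : 0 < 1 / (n : ℝ) := by positivity
    linarith
  have hcast : Tendsto (fun σ : ℝ => (σ : ℂ)) (𝓝[>] (1 : ℝ)) (𝓝 (1 : ℂ)) := by
    have h : Continuous fun σ : ℝ => (σ : ℂ) := Complex.continuous_ofReal
    have := h.tendsto 1
    simp only [Complex.ofReal_one] at this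
    exact this.mono_left nhdsWithin_le_nhds
  have hZc : ContinuousAt Z0 1 := ((hZd 1 h1).differentiableAt (hopen.mem_nhds h1)).continuousAt
  have hlim : Tendsto (fun σ : ℝ => (κ : ℂ) + ((σ : ℂ) - 1) * Z0 σ) (𝓝[>] (1 : ℝ))
      (𝓝 ((κ : ℂ) + 0 * Z0 1)) :=
    ((tendsto_sub_one.mul (hZc.tendsto.comp hcast))).const_add _
  rw [zero_mul, add_zero] at hlim
  have hκ : (κ : ℂ) ≠ 0 := by
    have := hS.kpos.ne'
    exact_mod_cast this
  have hev : ∀ᶠ σ : ℝ in 𝓝[>] (1 : ℝ), LSeriesSummable (cr r) σ := by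
    filter_upwards [hlim.eventually_ne hκ, self_mem_nhdsWithin] with σ h1 h2
    by_contra hcon
    apply h1
    have h3 : LSeries (cr r) σ = 0 := tsum_eq_zero_of_not_summable hcon
    have h4 := hZ σ (by simpa using h2)
    have h5 : (σ : ℂ) - 1 ≠ 0 := by
      rw [sub_ne_zero]
      intro h
      have : σ = 1 := by exact_mod_cast h
      exact absurd h2 (by simp [this])
    rw [h3] at h4
    have h6 : (κ : ℂ) + ((σ : ℂ) - 1) * Z0 σ = ((σ : ℂ) - 1) * (κ / ((σ : ℂ) - 1) + Z0 σ) := by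
      field_simp
    rw [h6, ← h4, mul_zero]
  intro s hs
  have h3 : ∀ᶠ σ : ℝ in 𝓝[>] (1 : ℝ), σ < s.re := by
    filter_upwards [Ioo_mem_nhdsGT hs] with σ hσ using hσ.2
  obtain ⟨σ, h4, h5⟩ := (hev.and h3).exists
  exact h4.of_re_le_re (by simpa using h5.le)

theorem ok_tw (hr : Ok (cr r)) {q : ℕ} (χ : DirichletCharacter ℂ q) : Ok (tw r χ) := by
  intro s hs
  have := DirichletCharacter.LSeriesSummable_mul χ (hr s hs)
  refine (LSeriesSummable_congr s fun {m} _ => ?_).1 this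
  simp only [Pi.mul_apply, cr, tw]
  ring

theorem L_abs (hS : IsSys n r L κ) (m : ℕ) : ‖(L m : ℂ)‖ ≤ n * Λ m := by
  rw [Complex.norm_real, Real.norm_eq_abs, abs_of_nonneg (hS.L_nonneg m)]
  exact hS.L_le m

theorem ok_of_le {a : ℕ → ℂ} {K : ℝ} (h : ∀ m, ‖a m‖ ≤ K * Λ m) : Ok a := by
  intro s hs
  have h1 := (ArithmeticFunction.LSeriesSummable_vonMangoldt hs).norm.mul_left K
  refine Summable.of_norm_bounded h1 fun m => ?_
  rw [LSeries.norm_term_eq, LSeries.norm_term_eq]
  split_ifs with h0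
  · simp
  · rw [← mul_div_assoc, Complex.norm_real, Real.norm_eq_abs,
      abs_of_nonneg ArithmeticFunction.vonMangoldt_nonneg]
    exact div_le_div_of_nonneg_right (h m) (by positivity)

theorem conv_tw (hS : IsSys n r L κ) {q : ℕ} (χ : DirichletCharacter ℂ q) (s : ℂ) :
    LSeries (LSeries.logMul (tw r χ)) s = LSeries (LSeries.convolution (tw r χ) (tw L χ)) s := by
  have h1 : tw r χ = ((χ ·) : ℕ → ℂ) * cr r := by
    funext m
    simp only [Pi.mul_apply, cr, tw]
    ring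
  have h2 : tw L χ = ((χ ·) : ℕ → ℂ) * cr L := by
    funext m
    simp only [Pi.mul_apply, cr, tw]
    ring
  rw [h2]
  conv_rhs => rw [h1]
  rw [DirichletCharacter.mul_convolution_distrib]
  refine LSeries_congr (fun {m} hm => ?_) s
  simp only [LSeries.logMul, Pi.mul_apply, LSeries.convolution_def, cr, tw]
  have h3 : ((∑ p ∈ m.divisorsAntidiagonal, (r p.1 * L p.2) : ℝ) : ℂ) =
      ((r m * Real.log m : ℝ) : ℂ) := by
    rw [← hS.conv m, ArithmeticFunction.mul_apply]
  push_cast at h3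
  rw [h3, ← Complex.natCast_log]
  ring

/-- `Re s > 1`: the derivative of the twisted L-series -/
theorem deriv_tw (hS : IsSys n r L κ) (hr : Ok (cr r)) {q : ℕ} (χ : DirichletCharacter ℂ q)
    {s : ℂ} (hs : 1 < s.re) :
    deriv (LSeries (tw r χ)) s = -(LSeries (tw r χ) s * LSeries (tw L χ) s) := by
  have hab : LSeries.abscissaOfAbsConv (tw r χ) < s.re := by
    refine lt_of_le_of_lt (b := (1 : EReal)) ?_ (by exact_mod_cast hs)
    refine LSeries.abscissaOfAbsConv_le_of_forall_lt_LSeriesSummable fun y hy => ?_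
    exact ok_tw hr χ y (by simpa using hy)
  have hL : Ok (tw L χ) := by
    refine ok_of_le (K := n) fun m => ?_
    unfold tw
    rw [norm_mul]
    calc ‖(L m : ℂ)‖ * ‖χ (m : ZMod q)‖ ≤ ‖(L m : ℂ)‖ * 1 :=
          mul_le_mul_of_nonneg_left (χ.norm_le_one _) (norm_nonneg _)
      _ ≤ n * Λ m := by rw [mul_one]; exact L_abs hS m
  rw [LSeries_deriv hab, conv_tw hS χ s, LSeries_convolution' (ok_tw hr χ s hs) (hL s hs)]

theorem ok_twL (hS : IsSys n r L κ) {q : ℕ} (χ : DirichletCharacter ℂ q) : Ok (tw L χ) := by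
  refine ok_of_le (K := n) fun m => ?_
  unfold tw
  rw [norm_mul]
  calc ‖(L m : ℂ)‖ * ‖χ (m : ZMod q)‖ ≤ ‖(L m : ℂ)‖ * 1 :=
        mul_le_mul_of_nonneg_left (χ.norm_le_one _) (norm_nonneg _)
    _ ≤ n * Λ m := by rw [mul_one]; exact L_abs hS m

/-- the residue of a nontrivial twist is minus the order of the zero at `1` -/
theorem lim_twL (hS : IsSys n r L κ) (h1 : Cont) (hr : Ok (cr r)) {q : ℕ} [NeZero q]
    (χ : DirichletCharacter ℂ q) (hχ : χ ≠ 1) :
    ∃ m : ℕ, Lim (tw L χ) (-(m : ℂ)) ∧ (LF (tw r χ) 1 = 0 → m ≠ 0) := by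
  obtain ⟨C, -, hC⟩ := h1 n r L κ hS
  obtain ⟨hd, heq, -⟩ := hC q χ hχ
  have hn : (0 : ℝ) < n := by exact_mod_cast hS.pos
  have hopen : IsOpen {s : ℂ | 1 - 1 / (n : ℝ) < s.re} :=
    isOpen_lt continuous_const Complex.continuous_re
  have h1mem : (1 : ℂ) ∈ {s : ℂ | 1 - 1 / (n : ℝ) < s.re} := by
    simp only [Set.mem_ofPred_eq, Complex.one_re]
    have : 0 < 1 / (n : ℝ) := by positivity
    linarith
  have han : AnalyticOnNhd ℂ (LF (tw r χ)) {s : ℂ | 1 - 1 / (n : ℝ) < s.re} :=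
    hd.analyticOnNhd hopen
  have hord : analyticOrderAt (LF (tw r χ)) 1 ≠ ⊤ := by
    intro htop
    have hev : ∀ᶠ z in 𝓝 (1 : ℂ), LF (tw r χ) z = 0 := analyticOrderAt_eq_top.1 htop
    have hpre : IsPreconnected {s : ℂ | 1 - 1 / (n : ℝ) < s.re} :=
      (convex_halfSpace_re_gt _).isPreconnected
    have hz := han.eqOn_zero_of_preconnected_of_eventuallyEq_zero hpre h1mem hev
    have hab : LSeries.abscissaOfAbsConv (tw r χ) < ⊤ := by
      refine lt_of_le_of_lt (b := (1 : EReal)) ?_ (by exact_mod_cast EReal.coe_lt_top 1)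
      refine LSeries.abscissaOfAbsConv_le_of_forall_lt_LSeriesSummable fun y hy => ?_
      exact ok_tw hr χ y (by simpa using hy)
    have hlim := LSeries.tendsto_atTop hab
    have hzero : Tendsto (fun x : ℝ => LSeries (tw r χ) x) atTop (𝓝 0) := by
      refine tendsto_const_nhds.congr' ?_
      filter_upwards [eventually_gt_atTop (1 : ℝ)] with x hx
      have hx' : (1 : ℝ) < ((x : ℂ)).re := by simpa using hx
      rw [← heq x hx']
      have hxm : (x : ℂ) ∈ {s : ℂ | 1 - 1 / (n : ℝ) < s.re} := by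
        simp only [Set.mem_ofPred_eq, Complex.ofReal_re]
        have : 0 < 1 / (n : ℝ) := by positivity
        linarith
      exact (hz hxm).symm
    have h10 := tendsto_nhds_unique hlim hzero
    simp only [tw, hS.one, Nat.cast_one, map_one, Complex.ofReal_one, mul_one] at h10
    exact one_ne_zero h10
  obtain ⟨hl, hne⟩ := analytic_lim (han 1 h1mem) hord
  refine ⟨analyticOrderNatAt (LF (tw r χ)) 1, ?_, ?_⟩
  · unfold Lim
    refine hl.neg.congr' ?_
    filter_upwards [hne, self_mem_nhdsWithin] with σ hσ hσ1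
    have hσ' : (1 : ℝ) < ((σ : ℂ)).re := by simpa using hσ1
    have hopen1 : IsOpen {s : ℂ | 1 < s.re} := isOpen_lt continuous_const Complex.continuous_re
    have hev : LF (tw r χ) =ᶠ[𝓝 (σ : ℂ)] LSeries (tw r χ) := by
      filter_upwards [hopen1.mem_nhds hσ'] with s hs using heq s hs
    rw [hev.deriv_eq, heq σ hσ', deriv_tw hS hr χ hσ']
    rw [heq σ hσ'] at hσ
    field_simp
  · intro h0 hm
    have h3 : analyticOrderAt (LF (tw r χ)) 1 = 0 := by
      rw [← Nat.cast_analyticOrderNatAt hord, hm]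
      rfl
    exact ((han 1 h1mem).analyticOrderAt_eq_zero.1 h3) h0

/-- the residue of the untwisted series -/
theorem lim_L (hS : IsSys n r L κ) (h2 : Cont0) : Lim (cr L) 1 := by
  have hr := ok_cr hS h2
  obtain ⟨C, Z0, -, hZd, hZ, -⟩ := h2 n r L κ hS
  have hn : (0 : ℝ) < n := by exact_mod_cast hS.pos
  have hopen : IsOpen {s : ℂ | 1 - 1 / (n : ℝ) < s.re} :=
    isOpen_lt continuous_const Complex.continuous_re
  have h1mem : (1 : ℂ) ∈ {s : ℂ | 1 - 1 / (n : ℝ) < s.re} := by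
    simp only [Set.mem_ofPred_eq, Complex.one_re]
    have : 0 < 1 / (n : ℝ) := by positivity
    linarith
  have hκ : (κ : ℂ) ≠ 0 := by
    have := hS.kpos.ne'
    exact_mod_cast this
  set W : ℂ → ℂ := fun s => κ + (s - 1) * Z0 s with hW
  have hWd : DifferentiableOn ℂ W {s : ℂ | 1 - 1 / (n : ℝ) < s.re} :=
    (differentiableOn_const _).add ((differentiableOn_id.sub (differentiableOn_const _)).mul hZd)
  have han : AnalyticAt ℂ W 1 := hWd.analyticOnNhd hopen 1 h1mem
  have hW1 : W 1 = κ := by simp [hW]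
  have h0 : analyticOrderAt W 1 = 0 := han.analyticOrderAt_eq_zero.2 (by rw [hW1]; exact hκ)
  obtain ⟨hl, hne⟩ := analytic_lim han (by rw [h0]; exact ENat.zero_ne_top)
  have hnat : analyticOrderNatAt W 1 = 0 := by
    unfold analyticOrderNatAt
    rw [h0]
    rfl
  rw [hnat, Nat.cast_zero] at hl
  -- the derivative of the L-series
  have hcr : ∀ s : ℂ, 1 < s.re →
      deriv (LSeries (cr r)) s = -(LSeries (cr r) s * LSeries (cr L) s) := by
    intro s hs
    have e1 : LSeries (cr r) = LSeries (tw r (1 : DirichletCharacter ℂ 1)) := by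
      funext s
      refine LSeries_congr (fun {m} _ => ?_) s
      have : (1 : DirichletCharacter ℂ 1) (m : ZMod 1) = 1 :=
        MulChar.one_apply (isUnit_of_subsingleton _)
      simp [cr, tw, this]
    have e2 : LSeries (cr L) = LSeries (tw L (1 : DirichletCharacter ℂ 1)) := by
      funext s
      refine LSeries_congr (fun {m} _ => ?_) s
      have : (1 : DirichletCharacter ℂ 1) (m : ZMod 1) = 1 :=
        MulChar.one_apply (isUnit_of_subsingleton _)
      simp [cr, tw, this]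
    rw [e1, e2]
    exact deriv_tw hS hr _ hs
  have hl' : Tendsto (fun σ : ℝ => 1 - ((σ : ℂ) - 1) * (deriv W σ / W σ)) (𝓝[>] (1 : ℝ))
      (𝓝 (1 - 0)) := hl.const_sub 1
  rw [sub_zero] at hl'
  unfold Lim
  refine hl'.congr' ?_
  filter_upwards [hne, self_mem_nhdsWithin] with σ hσ hσ1
  have hσ' : (1 : ℝ) < ((σ : ℂ)).re := by simpa using hσ1
  have hopen1 : IsOpen {s : ℂ | 1 < s.re} := isOpen_lt continuous_const Complex.continuous_re
  have hne1 : (σ : ℂ) - 1 ≠ 0 := by
    rw [sub_ne_zero]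
    intro h
    have : σ = 1 := by exact_mod_cast h
    exact absurd hσ1 (by simp [this])
  have hWeq : ∀ s : ℂ, 1 < s.re → W s = (s - 1) * LSeries (cr r) s := by
    intro s hs
    have hs1 : s - 1 ≠ 0 := by
      rw [sub_ne_zero]
      rintro rfl
      simp at hs
    rw [hZ s hs, hW]
    field_simp
  have hev : W =ᶠ[𝓝 (σ : ℂ)] fun s => (s - 1) * LSeries (cr r) s := by
    filter_upwards [hopen1.mem_nhds hσ'] with s hs using hWeq s hs
  have hab : LSeries.abscissaOfAbsConv (cr r) < ((σ : ℂ)).re := by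
    refine lt_of_le_of_lt (b := (1 : EReal)) ?_ (by exact_mod_cast hσ')
    refine LSeries.abscissaOfAbsConv_le_of_forall_lt_LSeriesSummable fun y hy => ?_
    exact hr y (by simpa using hy)
  have hder : deriv W σ = LSeries (cr r) σ + ((σ : ℂ) - 1) * deriv (LSeries (cr r)) σ := by
    rw [hev.deriv_eq]
    have e1 : HasDerivAt (fun s : ℂ => s - 1) 1 (σ : ℂ) := (hasDerivAt_id _).sub_const 1
    have e2 := (LSeries_hasDerivAt hab).differentiableAt.hasDerivAt
    have e3 := (e1.mul e2).deriv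
    rw [one_mul] at e3
    exact e3
  rw [hWeq σ hσ'] at hσ ⊢
  have hZne : LSeries (cr r) σ ≠ 0 := right_ne_zero_of_mul hσ
  rw [hder, hcr σ hσ']
  field_simp
  ring

/-- the restriction of `L` to a residue class -/
noncomputable def resL (L : ArithmeticFunction ℝ) {N : ℕ} (c : ZMod N) : ℕ → ℂ :=
  fun m => if (m : ZMod N) = c then (L m : ℂ) else 0

theorem resL_eq (L : ArithmeticFunction ℝ) {N : ℕ} [NeZero N] {c : ZMod N} (hc : IsUnit c) :
    resL L c = (N.totient : ℂ)⁻¹ • ∑ ψ : DirichletCharacter ℂ N, (ψ c⁻¹) • tw L ψ := by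
  have hN : (N.totient : ℂ) ≠ 0 := by
    have : 0 < N.totient := Nat.totient_pos.2 (Nat.pos_of_ne_zero (NeZero.ne N))
    exact_mod_cast this.ne'
  funext m
  have h1 := DirichletCharacter.sum_char_inv_mul_char_eq ℂ hc (m : ZMod N)
  have h2 : ∑ ψ : DirichletCharacter ℂ N, (ψ c⁻¹) * ((L m : ℂ) * ψ (m : ZMod N)) =
      (∑ ψ : DirichletCharacter ℂ N, (ψ c⁻¹) * ψ (m : ZMod N)) * (L m : ℂ) := by
    rw [sum_mul]
    exact sum_congr rfl fun ψ _ => by ring
  simp only [Pi.smul_apply, Finset.sum_apply, smul_eq_mul, resL, tw]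
  rw [h2, h1]
  by_cases h : (m : ZMod N) = c
  · rw [if_pos h, if_pos h.symm]
    field_simp
  · rw [if_neg h, if_neg (Ne.symm h)]
    simp

theorem lim_residueClass {N : ℕ} [NeZero N] {c : ZMod N} (hc : IsUnit c) :
    Lim (fun m => (ArithmeticFunction.vonMangoldt.residueClass c m : ℂ)) ((N.totient : ℂ)⁻¹) := by
  have h1 := ArithmeticFunction.vonMangoldt.continuousOn_LFunctionResidueClassAux c
  have h2 := ArithmeticFunction.vonMangoldt.eqOn_LFunctionResidueClassAux hc
  have hcast : Tendsto (fun σ : ℝ => (σ : ℂ)) (𝓝[>] (1 : ℝ)) (𝓝[{s : ℂ | 1 ≤ s.re}] (1 : ℂ)) := by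
    refine tendsto_nhdsWithin_iff.2 ⟨?_, ?_⟩
    · have h : Continuous fun σ : ℝ => (σ : ℂ) := Complex.continuous_ofReal
      have := h.tendsto 1
      simp only [Complex.ofReal_one] at this
      exact this.mono_left nhdsWithin_le_nhds
    · filter_upwards [self_mem_nhdsWithin] with σ hσ
      simpa using (le_of_lt hσ)
  have h3 := (h1 1 (by simp)).tendsto.comp hcast
  have h4 := (tendsto_sub_one.mul h3).add_const ((N.totient : ℂ)⁻¹)
  rw [zero_mul, zero_add] at h4
  unfold Lim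
  refine h4.congr' ?_
  filter_upwards [self_mem_nhdsWithin] with σ hσ
  have hσ' : (1 : ℝ) < ((σ : ℂ)).re := by simpa using hσ
  have hne1 : (σ : ℂ) - 1 ≠ 0 := by
    rw [sub_ne_zero]
    intro h
    have : σ = 1 := by exact_mod_cast h
    exact absurd hσ (by simp [this])
  have h5 := h2 hσ'
  simp only [Function.comp_apply]
  rw [h5]
  field_simp
  ring

theorem cmp_tw (hS : IsSys n r L κ) {N q : ℕ} [NeZero N] (ψ : DirichletCharacter ℂ N)
    (χ : DirichletCharacter ℂ q)
    (h : ∀ m : ℕ, m.Coprime N → ψ (m : ZMod N) = χ (m : ZMod q)) {c : ℂ}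
    (hl : Lim (tw L χ) c) : Lim (tw L ψ) c := by
  refine Lim.cmp (2 * n) (N + 1) (ok_twL hS χ) (fun m => ?_) hl
  by_cases hm : m.Prime ∧ N + 1 ≤ m
  · have hcop : m.Coprime N := by
      rw [Nat.Prime.coprime_iff_not_dvd hm.1]
      intro hdvd
      have := Nat.le_of_dvd (Nat.pos_of_ne_zero (NeZero.ne N)) hdvd
      omega
    have h0 : tw L ψ m - tw L χ m = 0 := by
      unfold tw
      rw [h m hcop, sub_self]
    rw [h0, norm_zero]
    exact mul_nonneg (by positivity) (exc_nonneg _ _)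
  · have hexc : exc (N + 1) m = Λ m := by
      unfold exc
      rw [if_neg hm]
    rw [hexc]
    have h1 : ‖tw L ψ m‖ ≤ n * Λ m := by
      unfold tw
      rw [norm_mul]
      calc ‖(L m : ℂ)‖ * ‖ψ (m : ZMod N)‖ ≤ ‖(L m : ℂ)‖ * 1 :=
            mul_le_mul_of_nonneg_left (ψ.norm_le_one _) (norm_nonneg _)
        _ ≤ n * Λ m := by rw [mul_one]; exact L_abs hS m
    have h2 : ‖tw L χ m‖ ≤ n * Λ m := by
      unfold tw
      rw [norm_mul]
      calc ‖(L m : ℂ)‖ * ‖χ (m : ZMod q)‖ ≤ ‖(L m : ℂ)‖ * 1 :=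
            mul_le_mul_of_nonneg_left (χ.norm_le_one _) (norm_nonneg _)
        _ ≤ n * Λ m := by rw [mul_one]; exact L_abs hS m
    have h3 := norm_sub_le (tw L ψ m) (tw L χ m)
    linarith

end System

/-- NF-16 -/
theorem nonVanF (h1 : Cont) (h2 : Cont0) : NonVanF := by
  intro n r L κ hS q _ χ hχ hzero
  have hr := ok_cr hS h2
  obtain ⟨D, p0, hD, hwit⟩ := hS.wit
  set N := q * D with hNdef
  have hNne : N ≠ 0 := mul_ne_zero (NeZero.ne q) hD.ne'
  have : NeZero N := ⟨hNne⟩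
  have hqN : q ∣ N := Dvd.intro _ rfl
  have htot : (N.totient : ℂ) ≠ 0 := by
    have : 0 < N.totient := Nat.totient_pos.2 (Nat.pos_of_ne_zero hNne)
    exact_mod_cast this.ne'
  -- residues of the twists
  have hex : ∀ ψ : DirichletCharacter ℂ N, ∃ m : ℕ, ψ ≠ 1 → Lim (tw L ψ) (-(m : ℂ)) := by
    intro ψ
    by_cases hψ : ψ = 1
    · exact ⟨0, fun h => absurd hψ h⟩
    · obtain ⟨m, hm, -⟩ := lim_twL hS h1 hr ψ hψ
      exact ⟨m, fun _ => hm⟩
  choose m hm using hex
  have hone : Lim (tw L (1 : DirichletCharacter ℂ N)) 1 := by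
    have e2 : cr L = tw L (1 : DirichletCharacter ℂ 1) := by
      funext m
      have : (1 : DirichletCharacter ℂ 1) (m : ZMod 1) = 1 :=
        MulChar.one_apply (isUnit_of_subsingleton _)
      simp [cr, tw, this]
    have h3 := lim_L hS h2
    rw [e2] at h3
    refine cmp_tw hS _ _ (fun m hm => ?_) h3
    rw [MulChar.one_apply ((ZMod.isUnit_iff_coprime m N).2 hm),
      MulChar.one_apply (isUnit_of_subsingleton (m : ZMod 1))]
  -- the lift of `χ`
  set χ' : DirichletCharacter ℂ N := DirichletCharacter.changeLevel hqN χ with hχ'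
  have hχ'1 : χ' ≠ 1 := by
    rw [hχ', Ne, DirichletCharacter.changeLevel_eq_one_iff]
    exact hχ
  obtain ⟨m0, hm0, hm0'⟩ := lim_twL hS h1 hr χ hχ
  have hlift : Lim (tw L χ') (-(m0 : ℂ)) := by
    refine cmp_tw hS _ _ (fun m hm => ?_) hm0
    have hu : IsUnit (m : ZMod N) := (ZMod.isUnit_iff_coprime m N).2 hm
    have := DirichletCharacter.changeLevel_eq_cast_of_dvd χ hqN hu.unit
    rw [IsUnit.unit_spec] at this
    rw [hχ', this, ZMod.cast_natCast hqN]
  have hmχ : m χ' = m0 := by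
    have := (hm χ' hχ'1).unique hlift
    have h3 : (m χ' : ℂ) = m0 := neg_injective this
    exact_mod_cast h3
  have hmχ0 : 1 ≤ m χ' := by
    rw [hmχ]
    exact Nat.one_le_iff_ne_zero.2 (hm0' hzero)
  -- residue classes
  set S : Finset (DirichletCharacter ℂ N) := univ.erase 1 with hSdef
  have hres : ∀ c : ZMod N, IsUnit c →
      Lim (resL L c) ((N.totient : ℂ)⁻¹ * (1 - ∑ ψ ∈ S, ψ c⁻¹ * (m ψ : ℂ))) := by
    intro c hc
    have hc' : IsUnit c⁻¹ := isUnit_of_dvd_one ⟨c, (ZMod.inv_mul_of_unit c hc).symm⟩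
    rw [resL_eq L hc]
    refine Lim.smul ?_ _
    have h3 : Lim (∑ ψ ∈ S, (ψ c⁻¹) • tw L ψ) (∑ ψ ∈ S, ψ c⁻¹ * (-(m ψ : ℂ))) :=
      Lim.sum S (fun ψ _ => (ok_twL hS ψ).smul _) fun ψ hψ =>
        (hm ψ (ne_of_mem_erase hψ)).smul _
    have h4 : Lim ((1 : DirichletCharacter ℂ N) c⁻¹ • tw L (1 : DirichletCharacter ℂ N))
        ((1 : DirichletCharacter ℂ N) c⁻¹ * 1) := hone.smul _
    have h5 := h4.add ((ok_twL hS _).smul _)
      (fun s hs => by
        refine LSeriesSummable.sum fun ψ _ => ?_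
        exact (ok_twL hS ψ).smul _ s hs) h3
    rw [add_sum_erase univ (fun ψ : DirichletCharacter ℂ N => (ψ c⁻¹) • tw L ψ)
      (mem_univ 1)] at h5
    rw [MulChar.one_apply hc', one_mul] at h5
    have h6 : (1 : ℂ) + ∑ ψ ∈ S, ψ c⁻¹ * (-(m ψ : ℂ)) = 1 - ∑ ψ ∈ S, ψ c⁻¹ * (m ψ : ℂ) := by
      rw [sub_eq_add_neg, ← sum_neg_distrib]
      congr 1
      exact sum_congr rfl fun ψ _ => by ring
    rwa [h6] at h5
  -- the class of `1`
  have hle : ∑ ψ ∈ S, m ψ ≤ 1 := by
    have h3 := hres 1 isUnit_one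
    have h4 : ∀ σ : ℝ, 1 < σ → 0 ≤ (((σ : ℂ) - 1) * LSeries (resL L (1 : ZMod N)) σ).re := by
      intro σ hσ
      have hsum : LSeriesSummable (resL L (1 : ZMod N)) σ := by
        refine ok_of_le (K := n) (fun m => ?_) σ (by simpa using hσ)
        unfold resL
        split_ifs
        · exact L_abs hS m
        · rw [norm_zero]
          exact mul_nonneg (Nat.cast_nonneg _) ArithmeticFunction.vonMangoldt_nonneg
      have h5 : 0 ≤ (LSeries (resL L (1 : ZMod N)) σ).re := by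
        rw [LSeries, Complex.re_tsum hsum]
        refine tsum_nonneg fun k => ?_
        rcases eq_or_ne k 0 with rfl | hk
        · simp
        · rw [LSeries.term_of_ne_zero hk]
          unfold resL
          split_ifs
          · rw [← Complex.ofReal_natCast, ← Complex.ofReal_cpow (Nat.cast_nonneg k),
              ← Complex.ofReal_div, Complex.ofReal_re]
            exact div_nonneg (hS.L_nonneg k) (by positivity)
          · simp
      have h6 : ((σ : ℂ) - 1) = ((σ - 1 : ℝ) : ℂ) := by push_cast; rfl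
      rw [h6, Complex.re_ofReal_mul]
      exact mul_nonneg (by linarith) h5
    have h5 : 0 ≤ ((N.totient : ℂ)⁻¹ * (1 - ∑ ψ ∈ S, ψ (1 : ZMod N)⁻¹ * (m ψ : ℂ))).re := by
      refine ge_of_tendsto ((Complex.continuous_re.tendsto _).comp h3) ?_
      filter_upwards [self_mem_nhdsWithin] with σ hσ
      exact h4 σ hσ
    have h6 : ((N.totient : ℂ)⁻¹ * (1 - ∑ ψ ∈ S, ψ (1 : ZMod N)⁻¹ * (m ψ : ℂ))) =
        (((N.totient : ℝ)⁻¹ * (1 - ∑ ψ ∈ S, (m ψ : ℝ)) : ℝ) : ℂ) := by
      push_cast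
      congr 2
      refine sum_congr rfl fun ψ _ => ?_
      rw [ZMod.inv_one]
      simp
    rw [h6, Complex.ofReal_re] at h5
    have h7 : (0 : ℝ) < (N.totient : ℝ)⁻¹ := by
      have : 0 < N.totient := Nat.totient_pos.2 (Nat.pos_of_ne_zero hNne)
      positivity
    have h8 : 0 ≤ 1 - ∑ ψ ∈ S, (m ψ : ℝ) := nonneg_of_mul_nonneg_right h5 h7
    have h9 : (∑ ψ ∈ S, (m ψ : ℝ)) ≤ 1 := by linarith
    exact_mod_cast h9
  have hχ'S : χ' ∈ S := mem_erase.2 ⟨hχ'1, mem_univ _⟩
  have hothers : ∀ ψ ∈ S.erase χ', m ψ = 0 := by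
    have h3 := add_sum_erase S m hχ'S
    have h4 : ∑ ψ ∈ S.erase χ', m ψ = 0 := by omega
    exact sum_eq_zero_iff.1 h4
  -- the class of `-1`
  have hneg : IsUnit (-1 : ZMod N) := isUnit_one.neg
  have h3 := hres (-1) hneg
  have h4 : Lim (resL L (-1 : ZMod N)) ((N.totient : ℂ)⁻¹) := by
    refine Lim.cmp (n + 1) p0 ?_ (fun k => ?_) (lim_residueClass hneg)
    · refine ok_of_le (K := 1) fun k => ?_
      rw [one_mul, Complex.norm_real, Real.norm_eq_abs,
        abs_of_nonneg (ArithmeticFunction.vonMangoldt.residueClass_nonneg _ k)]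
      exact ArithmeticFunction.vonMangoldt.residueClass_le _ k
    · by_cases hk : (k : ZMod N) = -1
      · have e1 : ArithmeticFunction.vonMangoldt.residueClass (-1 : ZMod N) k = Λ k := by
          simp [ArithmeticFunction.vonMangoldt.residueClass, hk]
        rw [e1]
        unfold resL
        rw [if_pos hk]
        by_cases hp : k.Prime ∧ p0 ≤ k
        · have hdvd : D ∣ k + 1 := by
            have h5 : ((k + 1 : ℕ) : ZMod N) = 0 := by
              push_cast
              rw [hk]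
              ring
            have h6 : N ∣ k + 1 := (ZMod.natCast_eq_zero_iff _ _).1 h5
            exact (Dvd.intro_left q rfl).trans h6
          rw [hwit k hp.1 hp.2 hdvd, ArithmeticFunction.vonMangoldt_apply_prime hp.1, sub_self,
            norm_zero]
          exact mul_nonneg (by positivity) (exc_nonneg _ _)
        · have hexc : exc p0 k = Λ k := by
            unfold exc
            rw [if_neg hp]
          rw [hexc]
          have h5 := L_abs hS k
          have h6 : ‖((Λ k : ℝ) : ℂ)‖ = Λ k := by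
            rw [Complex.norm_real, Real.norm_eq_abs,
              abs_of_nonneg ArithmeticFunction.vonMangoldt_nonneg]
          have h7 := norm_sub_le (L k : ℂ) ((Λ k : ℝ) : ℂ)
          rw [h6] at h7
          linarith
      · have e1 : ArithmeticFunction.vonMangoldt.residueClass (-1 : ZMod N) k = 0 := by
          simp [ArithmeticFunction.vonMangoldt.residueClass, hk]
        rw [e1]
        unfold resL
        rw [if_neg hk]
        simp only [Complex.ofReal_zero, sub_self, norm_zero]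
        exact mul_nonneg (by positivity) (exc_nonneg _ _)
  have h5 := h3.unique h4
  have h6 : ∑ ψ ∈ S, ψ (-1 : ZMod N)⁻¹ * (m ψ : ℂ) = 0 := by
    have h7 : (1 : ℂ) - ∑ ψ ∈ S, ψ (-1 : ZMod N)⁻¹ * (m ψ : ℂ) = 1 := by
      have h8 : (N.totient : ℂ) * ((N.totient : ℂ)⁻¹ *
          (1 - ∑ ψ ∈ S, ψ (-1 : ZMod N)⁻¹ * (m ψ : ℂ))) =
          (N.totient : ℂ) * (N.totient : ℂ)⁻¹ := by rw [h5]
      rw [← mul_assoc, mul_inv_cancel₀ htot, one_mul] at h8
      exact h8
    linear_combination -h7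
  rw [← add_sum_erase S _ hχ'S] at h6
  have h7 : ∑ ψ ∈ S.erase χ', ψ (-1 : ZMod N)⁻¹ * (m ψ : ℂ) = 0 :=
    sum_eq_zero fun ψ hψ => by rw [hothers ψ hψ]; simp
  rw [h7, add_zero] at h6
  have hu : IsUnit (-1 : ZMod N)⁻¹ :=
    isUnit_of_dvd_one ⟨-1, (ZMod.inv_mul_of_unit _ hneg).symm⟩
  rcases mul_eq_zero.1 h6 with h8 | h8
  · exact (hu.map χ').ne_zero h8
  · have : m χ' = 0 := by exact_mod_cast h8
    omega

end Pool.Agent.Helper87.NF
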